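import Pool.Agent.H500.ED.Stm
import Pool.Agent.H643.AS.Bridge
import Pool.Graph.R_seed8.W352.ChAbs.Frob

/-!
# Project ED (helper500), part C2 (helper190): the field of an open normal subgroup

Adapted from `Pool/Agent/H967/SV/Fld.lean` (helper967).
-/

set_option autoImplicit false
set_option linter.all false

namespace Pool.Agent.H190.ED.FXF

open NumberField IsDedekindDomain Filter Topology
open Pool.Agent.W401.Cheb (GK IsFrob IsInert)
open Pool.Agent.H500.SV (Above Fld)
open Pool.Agent.H500.R2 (UnrOut)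
open Pool.Agent.H500.ED (FX)

section
variable {K : Type} [Field K] [NumberField K] {L : Type} [Field L] [NumberField L] [Algebra K L]
variable {U : Subgroup (GK K)} {ι : GK L →* GK K}
  {e : AlgebraicClosure L ≃+* AlgebraicClosure K}

theorem io_apply (h : FX U L ι e) (σ : GK L) (x : AlgebraicClosure K) :
    ι σ x = e (σ (e.symm x)) := by
  rw [← h.act, e.apply_symm_apply]

theorem io_inj (h : FX U L ι e) : Function.Injective ι := by
  intro σ τ hst
  apply AlgEquiv.ext
  intro x
  have h1 := DFunLike.congr_fun hst (e x)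
  rw [h.act, h.act] at h1
  exact e.injective h1

theorem io_mem (h : FX U L ι e) (σ : GK L) : ι σ ∈ U := by
  rw [h.mem]
  intro x
  rw [h.act, σ.commutes]

theorem exists_lift (h : FX U L ι e) {τ : GK K} (hτ : τ ∈ U) : ∃ σ : GK L, ι σ = τ := by
  rw [h.mem] at hτ
  let f : AlgebraicClosure L ≃+* AlgebraicClosure L :=
    (e.trans (τ : AlgebraicClosure K ≃+* AlgebraicClosure K)).trans e.symm
  have hf : ∀ x, f x = e.symm (τ (e x)) := fun x => rfl
  refine ⟨AlgEquiv.ofRingEquiv (f := f) (fun x => ?_), ?_⟩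
  · rw [hf, hτ x, e.symm_apply_apply]
  · apply AlgEquiv.ext
    intro x
    rw [io_apply h]
    show e (f (e.symm x)) = τ x
    rw [hf, e.apply_symm_apply, e.apply_symm_apply]

theorem io_range (h : FX U L ι e) : ι.range = U := by
  ext τ
  constructor
  · rintro ⟨σ, rfl⟩
    exact io_mem h σ
  · intro hτ
    obtain ⟨σ, hσ⟩ := exists_lift h hτ
    exact ⟨σ, hσ⟩

/-- an automorphism which fixes a basis fixes the field -/
theorem fix_of_basis {F Ω : Type} [Field F] [Field Ω] [Algebra F Ω] (E : IntermediateField F Ω)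
    [FiniteDimensional F E] (σ : Gal(Ω/F))
    (h : ∀ i, σ ((Module.finBasis F E i : E) : Ω) = ((Module.finBasis F E i : E) : Ω)) :
    σ ∈ E.fixingSubgroup := by
  rw [IntermediateField.mem_fixingSubgroup_iff]
  intro x hx
  have h1 : (σ.toLinearMap.comp E.val.toLinearMap : E →ₗ[F] Ω) = E.val.toLinearMap :=
    (Module.finBasis F E).ext fun i => h i
  exact DFunLike.congr_fun h1 (⟨x, hx⟩ : E)

theorem comap_open (h : FX U L ι e) (V : Subgroup (GK K)) (hV : IsOpen (V : Set (GK K))) :
    IsOpen ((V.comap ι : Subgroup (GK L)) : Set (GK L)) := by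
  obtain ⟨E, hE, hEV⟩ := (krullTopology_mem_nhds_one_iff K (AlgebraicClosure K) _).1
    (hV.mem_nhds V.one_mem)
  apply Subgroup.isOpen_of_mem_nhds (g := 1)
  rw [krullTopology_mem_nhds_one_iff]
  let S : Set (AlgebraicClosure L) :=
    Set.range fun i => e.symm ((Module.finBasis K E i : E) : AlgebraicClosure K)
  have hSf : Finite S := Set.finite_range _
  have hfd : FiniteDimensional L (IntermediateField.adjoin L S) :=
    IntermediateField.finiteDimensional_adjoin fun x _ => Algebra.IsIntegral.isIntegral x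
  refine ⟨IntermediateField.adjoin L S, hfd, fun σ hσ => ?_⟩
  apply hEV
  apply fix_of_basis
  intro i
  rw [io_apply h]
  have h1 : e.symm ((Module.finBasis K E i : E) : AlgebraicClosure K) ∈
      IntermediateField.adjoin L S := IntermediateField.subset_adjoin L S ⟨i, rfl⟩
  rw [(IntermediateField.mem_fixingSubgroup_iff _ σ).1 hσ _ h1, e.apply_symm_apply]

/-- the embedding of `L` -/
noncomputable def emb (h : FX U L ι e) : L →ₐ[K] AlgebraicClosure K :=
  { (e : AlgebraicClosure L →+* AlgebraicClosure K).comp (algebraMap L (AlgebraicClosure L)) with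
    commutes' := fun x => h.base x }

theorem emb_apply (h : FX U L ι e) (x : L) : emb h x = e (algebraMap L (AlgebraicClosure L) x) :=
  rfl

theorem mem_U_iff (h : FX U L ι e) (g : GK K) : g ∈ U ↔ g ∈ (emb h).fieldRange.fixingSubgroup := by
  rw [h.mem, IntermediateField.mem_fixingSubgroup_iff]
  constructor
  · rintro h1 _ ⟨x, rfl⟩
    exact h1 x
  · intro h1 x
    exact h1 _ ⟨x, rfl⟩

theorem fix_eq (h : FX U L ι e) : (emb h).fieldRange.fixingSubgroup = U := by
  ext g
  exact (mem_U_iff h g).symm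

noncomputable def eqv (h : FX U L ι e) : L ≃ₐ[K] (emb h).fieldRange :=
  AlgEquiv.ofInjectiveField (emb h)

theorem finL : FiniteDimensional K L := Module.Finite.of_restrictScalars_finite ℚ K L

theorem map_open (h : FX U L ι e) (V : Subgroup (GK L)) (hV : IsOpen (V : Set (GK L))) :
    IsOpen ((V.map ι : Subgroup (GK K)) : Set (GK K)) := by
  obtain ⟨E, hE, hEV⟩ := (krullTopology_mem_nhds_one_iff L (AlgebraicClosure L) _).1
    (hV.mem_nhds V.one_mem)
  apply Subgroup.isOpen_of_mem_nhds (g := 1)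
  rw [krullTopology_mem_nhds_one_iff]
  let S : Set (AlgebraicClosure K) :=
    Set.range fun i => e ((Module.finBasis L E i : E) : AlgebraicClosure L)
  have hSf : Finite S := Set.finite_range _
  have hfd : FiniteDimensional K (IntermediateField.adjoin K S) :=
    IntermediateField.finiteDimensional_adjoin fun x _ => Algebra.IsIntegral.isIntegral x
  have hfL : FiniteDimensional K L := finL
  have hfM : FiniteDimensional K (emb h).fieldRange :=
    Module.Finite.equiv (eqv h).toLinearEquiv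
  refine ⟨(emb h).fieldRange ⊔ IntermediateField.adjoin K S,
    IntermediateField.finiteDimensional_sup _ _, fun τ hτ => ?_⟩
  have hτM : τ ∈ U := (mem_U_iff h τ).2 (IntermediateField.fixingSubgroup_le le_sup_left hτ)
  have hτS : τ ∈ (IntermediateField.adjoin K S).fixingSubgroup :=
    IntermediateField.fixingSubgroup_le le_sup_right hτ
  obtain ⟨σ, rfl⟩ := exists_lift h hτM
  refine ⟨σ, hEV ?_, rfl⟩
  apply fix_of_basis
  intro i
  have h1 : e ((Module.finBasis L E i : E) : AlgebraicClosure L) ∈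
      IntermediateField.adjoin K S := IntermediateField.subset_adjoin K S ⟨i, rfl⟩
  have h2 := (IntermediateField.mem_fixingSubgroup_iff _ _).1 hτS _ h1
  rw [h.act] at h2
  exact e.injective h2

/-- the isomorphism of the rings of integers -/
noncomputable def up (e : AlgebraicClosure L ≃+* AlgebraicClosure K) :
    𝓞 (AlgebraicClosure L) →+* 𝓞 (AlgebraicClosure K) :=
  RingOfIntegers.mapRingHom (e : AlgebraicClosure L →+* AlgebraicClosure K)

noncomputable def dn (e : AlgebraicClosure L ≃+* AlgebraicClosure K) :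
    𝓞 (AlgebraicClosure K) →+* 𝓞 (AlgebraicClosure L) :=
  RingOfIntegers.mapRingHom (e.symm : AlgebraicClosure K →+* AlgebraicClosure L)

theorem up_coe (x : 𝓞 (AlgebraicClosure L)) :
    ((up e x : 𝓞 (AlgebraicClosure K)) : AlgebraicClosure K) = e x := rfl

theorem dn_coe (x : 𝓞 (AlgebraicClosure K)) :
    ((dn e x : 𝓞 (AlgebraicClosure L)) : AlgebraicClosure L) = e.symm x := rfl

theorem dn_up (x : 𝓞 (AlgebraicClosure L)) : dn e (up e x) = x := by
  apply RingOfIntegers.ext
  rw [dn_coe, up_coe, e.symm_apply_apply]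

theorem up_dn (x : 𝓞 (AlgebraicClosure K)) : up e (dn e x) = x := by
  apply RingOfIntegers.ext
  rw [up_coe, dn_coe, e.apply_symm_apply]

theorem dn_alg (h : FX U L ι e) (a : 𝓞 K) :
    dn e (algebraMap (𝓞 K) (𝓞 (AlgebraicClosure K)) a) =
      algebraMap (𝓞 L) (𝓞 (AlgebraicClosure L)) (algebraMap (𝓞 K) (𝓞 L) a) := by
  apply RingOfIntegers.ext
  rw [dn_coe]
  show e.symm (algebraMap K (AlgebraicClosure K) (a : K)) =
    algebraMap L (AlgebraicClosure L) (algebraMap K L (a : K))
  rw [← h.base, e.symm_apply_apply]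

theorem dn_smul (h : FX U L ι e) (σ : GK L) (x : 𝓞 (AlgebraicClosure K)) :
    dn e (ι σ • x) = σ • dn e x := by
  apply RingOfIntegers.ext
  rw [dn_coe]
  show e.symm (ι σ (x : AlgebraicClosure K)) = σ (e.symm (x : AlgebraicClosure K))
  rw [io_apply h, e.symm_apply_apply]

theorem up_smul (h : FX U L ι e) (σ : GK L) (x : 𝓞 (AlgebraicClosure L)) :
    up e (σ • x) = ι σ • up e x := by
  apply RingOfIntegers.ext
  rw [up_coe]
  show e (σ (x : AlgebraicClosure L)) = ι σ (e (x : AlgebraicClosure L))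
  rw [h.act]

theorem dn_max {Q : Ideal (𝓞 (AlgebraicClosure L))} (hQ : Q.IsMaximal) :
    (Q.comap (dn e)).IsMaximal :=
  Ideal.comap_isMaximal_of_surjective _ fun x => ⟨up e x, dn_up x⟩

theorem up_max {Q : Ideal (𝓞 (AlgebraicClosure K))} (hQ : Q.IsMaximal) :
    (Q.comap (up e)).IsMaximal :=
  Ideal.comap_isMaximal_of_surjective _ fun x => ⟨dn e x, up_dn x⟩

theorem dn_above (hh : FX U L ι e) {v : HeightOneSpectrum (𝓞 K)} {w : HeightOneSpectrum (𝓞 L)}
    (h : Above w v) {Q : Ideal (𝓞 (AlgebraicClosure L))}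
    (hQ : Q.comap (algebraMap (𝓞 L) (𝓞 (AlgebraicClosure L))) = w.asIdeal) :
    (Q.comap (dn e)).comap (algebraMap (𝓞 K) (𝓞 (AlgebraicClosure K))) = v.asIdeal := by
  have h' : w.asIdeal.comap (algebraMap (𝓞 K) (𝓞 L)) = v.asIdeal := h
  rw [← h', ← hQ]
  ext a
  rw [Ideal.mem_comap, Ideal.mem_comap, dn_alg hh]
  rfl

/-- the place of `L` below an ideal above `v` -/
theorem exists_w (h : FX U L ι e) {v : HeightOneSpectrum (𝓞 K)}
    {Q : Ideal (𝓞 (AlgebraicClosure K))} (hQm : Q.IsMaximal)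
    (hQv : Q.comap (algebraMap (𝓞 K) (𝓞 (AlgebraicClosure K))) = v.asIdeal) :
    ∃ w : HeightOneSpectrum (𝓞 L), Above w v ∧
      (Q.comap (up e)).comap (algebraMap (𝓞 L) (𝓞 (AlgebraicClosure L))) = w.asIdeal := by
  have hup := up_max (e := e) hQm
  have hp : ((Q.comap (up e)).comap (algebraMap (𝓞 L) (𝓞 (AlgebraicClosure L)))).IsPrime := by
    have := hup.isPrime
    exact Ideal.comap_isPrime _ _
  have hv : ((Q.comap (up e)).comap (algebraMap (𝓞 L) (𝓞 (AlgebraicClosure L)))).comap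
      (algebraMap (𝓞 K) (𝓞 L)) = v.asIdeal := by
    rw [← hQv]
    ext a
    rw [Ideal.mem_comap, Ideal.mem_comap, Ideal.mem_comap, Ideal.mem_comap, ← dn_alg h, up_dn]
  refine ⟨⟨_, hp, fun h0 => v.ne_bot ?_⟩, hv, rfl⟩
  rw [← hv, h0, ← RingHom.ker_eq_comap_bot]
  exact (RingHom.injective_iff_ker_eq_bot _).1 (FaithfulSMul.algebraMap_injective (𝓞 K) (𝓞 L))

theorem inert (hh : FX U L ι e) {v : HeightOneSpectrum (𝓞 K)} {w : HeightOneSpectrum (𝓞 L)}
    (h : Above w v) {s : GK L} (hs : IsInert w s) : IsInert v (ι s) := by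
  obtain ⟨Q, hQm, hQw, hQ⟩ := hs
  refine ⟨Q.comap (dn e), dn_max hQm, dn_above hh h hQw, fun x => ?_⟩
  rw [Ideal.mem_comap, map_sub, dn_smul hh]
  exact hQ _

theorem inert' (h : FX U L ι e) {v : HeightOneSpectrum (𝓞 K)} {s : GK L}
    (hs : IsInert v (ι s)) : ∃ w : HeightOneSpectrum (𝓞 L), Above w v ∧ IsInert w s := by
  obtain ⟨Q, hQm, hQv, hQ⟩ := hs
  obtain ⟨w, hw, hQw⟩ := exists_w h hQm hQv
  refine ⟨w, hw, Q.comap (up e), up_max hQm, hQw, fun x => ?_⟩
  rw [Ideal.mem_comap, map_sub, up_smul h]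
  exact hQ _

theorem frob_pow {v : HeightOneSpectrum (𝓞 K)} {σ : GK K} {Q : Ideal (𝓞 (AlgebraicClosure K))}
    (hσ : ∀ x : 𝓞 (AlgebraicClosure K), σ • x - x ^ Ideal.absNorm v.asIdeal ∈ Q) (f : ℕ) :
    ∀ x : 𝓞 (AlgebraicClosure K), (σ ^ f) • x - x ^ Ideal.absNorm v.asIdeal ^ f ∈ Q := by
  induction f with
  | zero =>
    intro x
    rw [pow_zero, pow_zero, one_smul, pow_one, sub_self]
    exact Q.zero_mem
  | succ f ih =>
    intro x
    have h1 := ih (σ • x)
    rw [smul_smul, ← pow_succ] at h1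
    have h2 : (σ • x) ^ Ideal.absNorm v.asIdeal ^ f - x ^ Ideal.absNorm v.asIdeal ^ (f + 1) ∈ Q := by
      have h3 : x ^ Ideal.absNorm v.asIdeal ^ (f + 1) =
          (x ^ Ideal.absNorm v.asIdeal) ^ Ideal.absNorm v.asIdeal ^ f := by
        rw [← pow_mul, pow_succ']
      rw [h3, ← Ideal.Quotient.eq, map_pow, map_pow]
      congr 1
      exact Ideal.Quotient.eq.2 (hσ x)
    have h4 := Q.add_mem h1 h2
    rwa [sub_add_sub_cancel] at h4

theorem frob (hh : FX U L ι e) {v : HeightOneSpectrum (𝓞 K)} {w : HeightOneSpectrum (𝓞 L)}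
    (h : Above w v) : ∃ f : ℕ, Ideal.absNorm w.asIdeal = Ideal.absNorm v.asIdeal ^ f ∧
    ∀ s, IsFrob w s → ∃ σ τ, IsFrob v σ ∧ IsInert v τ ∧ ι s = σ ^ f * τ := by
  have hu : w.under (𝓞 K) = v := HeightOneSpectrum.ext h
  refine ⟨Pool.Agent.Q5.BR.rdeg K w, ?_, ?_⟩
  · rw [Pool.Agent.Q5.BR.absNorm_rdeg (K := K) w, hu]
  rintro s ⟨Q, hQm, hQw, hQ⟩
  have hm := dn_max (e := e) hQm
  have hv := dn_above hh h hQw
  obtain ⟨σ, hσ⟩ := Pool.Agent.W352.ChAbs.exists_frob v (Q.comap (dn e)) hv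
  have hs : ∀ x : 𝓞 (AlgebraicClosure K),
      ι s • x - x ^ Ideal.absNorm w.asIdeal ∈ Q.comap (dn e) := by
    intro x
    rw [Ideal.mem_comap, map_sub, dn_smul hh, map_pow]
    exact hQ _
  have hf := frob_pow hσ (Pool.Agent.Q5.BR.rdeg K w)
  rw [Pool.Agent.Q5.BR.absNorm_rdeg (K := K) w, hu] at hs
  generalize Pool.Agent.Q5.BR.rdeg K w = f at hf hs ⊢
  refine ⟨σ, (σ ^ f)⁻¹ * ι s, ⟨_, hm, hv, hσ⟩, ⟨_, hm, hv, fun x => ?_⟩, by
    rw [mul_inv_cancel_left]⟩
  set y : 𝓞 (AlgebraicClosure K) := ((σ ^ f)⁻¹ * ι s) • x - x with hy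
  have h1 : (σ ^ f) • y ∈ Q.comap (dn e) := by
    have h2 : (σ ^ f) • y = (ι s • x - x ^ Ideal.absNorm v.asIdeal ^ f) -
        ((σ ^ f) • x - x ^ Ideal.absNorm v.asIdeal ^ f) := by
      rw [hy, smul_sub, smul_smul, mul_inv_cancel_left]
      ring
    rw [h2]
    exact Ideal.sub_mem _ (hs x) (hf x)
  have h3 : y ^ Ideal.absNorm v.asIdeal ^ f ∈ Q.comap (dn e) := by
    have h4 := Ideal.sub_mem _ h1 (hf y)
    rwa [sub_sub_cancel] at h4
  exact hm.isPrime.mem_of_pow_mem _ h3

/-- a field in which `x ^ q = x` has at most `q` elements -/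
theorem card_le_of_pow {k : Type} [Field k] {q : ℕ} (hq : 1 < q) (h : ∀ x : k, x ^ q = x) :
    Nat.card k ≤ q := by
  classical
  have hp : (Polynomial.X ^ q - Polynomial.X : Polynomial k) ≠ 0 :=
    FiniteField.X_pow_card_sub_X_ne_zero k hq
  have hsub : (Set.univ : Set k) ⊆ ((Polynomial.X ^ q - Polynomial.X : Polynomial k).roots.toFinset :
      Set k) := by
    intro x _
    rw [Finset.mem_coe, Multiset.mem_toFinset, Polynomial.mem_roots hp, Polynomial.IsRoot.def,
      Polynomial.eval_sub, Polynomial.eval_pow, Polynomial.eval_X, h x, sub_self]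
  have hfin : (Set.univ : Set k).Finite := (Finset.finite_toSet _).subset hsub
  have h1 : (Set.univ : Set k).ncard ≤ ((Polynomial.X ^ q - Polynomial.X :
      Polynomial k).roots.toFinset : Set k).ncard := Set.ncard_le_ncard hsub (Finset.finite_toSet _)
  rw [Set.ncard_univ, Set.ncard_coe_finset] at h1
  refine h1.trans ((Multiset.toFinset_card_le _).trans ((Polynomial.card_roots' _).trans ?_))
  rw [FiniteField.X_pow_card_sub_X_natDegree_eq k hq]

theorem frob' (h : FX U L ι e) {v : HeightOneSpectrum (𝓞 K)} {s : GK L}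
    (hs : IsFrob v (ι s)) : ∃ w : HeightOneSpectrum (𝓞 L), Above w v ∧
      Ideal.absNorm w.asIdeal = Ideal.absNorm v.asIdeal ∧ IsFrob w s := by
  obtain ⟨Q, hQm, hQv, hQ⟩ := hs
  obtain ⟨w, hw, hQw⟩ := exists_w h hQm hQv
  have hu : w.under (𝓞 K) = v := HeightOneSpectrum.ext hw
  have hx : ∀ x : 𝓞 L, x ^ Ideal.absNorm v.asIdeal - x ∈ w.asIdeal := by
    intro x
    have h1 := hQ (up e (algebraMap (𝓞 L) (𝓞 (AlgebraicClosure L)) x))
    have h2 : ι s • up e (algebraMap (𝓞 L) (𝓞 (AlgebraicClosure L)) x) =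
        up e (algebraMap (𝓞 L) (𝓞 (AlgebraicClosure L)) x) := by
      rw [← up_smul h, Pool.Agent.W401.Frob.smul_alg]
    rw [h2, ← map_pow, ← map_sub, ← map_pow, ← map_sub] at h1
    have h3 : x - x ^ Ideal.absNorm v.asIdeal ∈ w.asIdeal := by
      rw [← hQw]
      exact h1
    have h4 := w.asIdeal.neg_mem h3
    rwa [neg_sub] at h4
  have hq : 1 < Ideal.absNorm v.asIdeal := by
    have h0 : Ideal.absNorm v.asIdeal ≠ 0 := fun h => v.ne_bot (Ideal.absNorm_eq_zero_iff.1 h)
    have h1 : Ideal.absNorm v.asIdeal ≠ 1 := fun h =>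
      v.isPrime.ne_top (Ideal.absNorm_eq_one_iff.1 h)
    omega
  have hle : Ideal.absNorm w.asIdeal ≤ Ideal.absNorm v.asIdeal := by
    have hwm : w.asIdeal.IsMaximal := w.isMaximal
    let _ : Field (𝓞 L ⧸ w.asIdeal) := Ideal.Quotient.field w.asIdeal
    have h1 : Ideal.absNorm w.asIdeal = Nat.card (𝓞 L ⧸ w.asIdeal) := by
      rw [Ideal.absNorm_apply, Submodule.cardQuot_apply]
    rw [h1]
    refine card_le_of_pow hq fun y => ?_
    obtain ⟨x, rfl⟩ := Ideal.Quotient.mk_surjective y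
    rw [← map_pow]
    exact Ideal.Quotient.eq.2 (hx x)
  have hge : Ideal.absNorm v.asIdeal ≤ Ideal.absNorm w.asIdeal := by
    rw [Pool.Agent.Q5.BR.absNorm_rdeg (K := K) w, hu]
    exact Nat.le_self_pow (Pool.Agent.Q5.BR.rdeg_pos (K := K) w).ne' _
  have heq : Ideal.absNorm w.asIdeal = Ideal.absNorm v.asIdeal := le_antisymm hle hge
  refine ⟨w, hw, heq, Q.comap (up e), up_max hQm, hQw, fun x => ?_⟩
  rw [heq, Ideal.mem_comap, map_sub, up_smul h, map_pow]
  exact hQ _

end

theorem main : Pool.Agent.H500.ED.S_FXF := by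
  intro K _ _ U L _ _ _ ι e hUn hU hX
  have hfL : FiniteDimensional K L := finL
  have hfM : FiniteDimensional K (emb hX).fieldRange :=
    Module.Finite.equiv (eqv hX).toLinearEquiv
  have hnf : NumberField (emb hX).fieldRange := NumberField.of_module_finite K _
  have hgalM : IsGalois K (emb hX).fieldRange := by
    rw [← InfiniteGalois.normal_iff_isGalois, fix_eq hX]
    exact hUn
  have hgal : IsGalois K L := IsGalois.of_algEquiv (eqv hX).symm
  refine ⟨hgal, ?_, ?_, io_inj hX, io_range hX, comap_open hX, map_open hX,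
    fun v w h s hs => inert hX h hs, fun v s hs => inert' hX hs, fun v w h => frob hX h, ?_,
    fun v s hs => frob' hX hs⟩
  · rw [(eqv hX).toLinearEquiv.finrank_eq]
    exact (IntermediateField.finrank_eq_fixingSubgroup_index (F := K) (E' := AlgebraicClosure K)
      (emb hX).fieldRange).trans (congrArg Subgroup.index (fix_eq hX))
  · rintro ⟨r, hr⟩
    have h0 : Group.IsSolvable Gal((emb hX).fieldRange/K) := by
      refine ⟨r, ?_⟩
      rw [← map_derivedSeries_eq (AlgEquiv.restrictNormalHom_surjective (F := K)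
        (K₁ := (emb hX).fieldRange) (AlgebraicClosure K)) r, eq_bot_iff]
      rintro _ ⟨g, hg, rfl⟩
      have h1 : g ∈ (AlgEquiv.restrictNormalHom (F := K) (K₁ := AlgebraicClosure K)
          (emb hX).fieldRange).ker := by
        rw [IntermediateField.restrictNormalHom_ker, fix_eq hX]
        exact hr hg
      exact h1
    exact @solvable_of_surjective _ _ _ _ (AlgEquiv.autCongr (eqv hX).symm).toMonoidHom
      (AlgEquiv.autCongr (eqv hX).symm).surjective h0
  · intro N hN v w h hv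
    have h1 : Pool.Agent.Q92.AR.Unramified L v := by
      apply Pool.Agent.H643.AS.Bridge.unramified_of_inert
      intro σ hσ i
      have h1 : σ ∈ (emb hX).fieldRange.fixingSubgroup := by
        rw [fix_eq hX]
        exact hN v hv σ hσ
      apply AlgHom.ext
      intro z
      rw [Pool.Agent.W353.NF.act_apply]
      change σ (i z) = i z
      have h2 : i z ∈ (emb hX).fieldRange := by
        have h3 : (i.comp (eqv hX).symm.toAlgHom).fieldRange = (emb hX).fieldRange :=
          AlgHom.fieldRange_of_normal _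
        have h4 : i z ∈ (i.comp (eqv hX).symm.toAlgHom).fieldRange := by
          refine ⟨eqv hX z, ?_⟩
          show i ((eqv hX).symm (eqv hX z)) = i z
          rw [AlgEquiv.symm_apply_apply]
        exact h3.le h4
      exact (IntermediateField.mem_fixingSubgroup_iff _ σ).1 h1 _ h2
    exact h1 w (HeightOneSpectrum.ext h)

end Pool.Agent.H190.ED.FXF
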